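import Pool.Agent.Lib.MP_75fd85_lc.Main

/-!
# Hardness of shortest induced nonseparating cycles through an edge
-/

namespace Pool.Agent.Results.MP_75fd85_lc.PeripheralCycleNPHard

open Pool.Agent.Lib.MP_75fd85_lc Vert

/-- An explicit reduction from the satisfiability of CNF formulas all of whose clauses have at
least three literals to the length of a shortest induced nonseparating cycle through a given edge
of a 3-connected graph, with an arbitrary gap parameter `K`. Every adjacency of the graph is a
constant or a single membership bit of the formula. -/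
theorem result (n m K : ℕ) (hn : 2 ≤ n) (hK : 1 ≤ K) :
    Fintype.card (Vert n m K) = (n + 1) + 2 * n + 6 * (m + 1) * n * K ∧
    (∀ x y : Vert n m K,
      (∀ cl, (satGraph K cl).Adj x y) ∨ (∀ cl, ¬ (satGraph K cl).Adj x y) ∨
      ∃ (k : Fin n) (b : Bool) (c : Fin m), ∀ cl, (satGraph K cl).Adj x y ↔ (k, b) ∈ cl c) ∧
    ∀ cl : Fin m → Finset (Fin n × Bool), (∀ j, 3 ≤ (cl j).card) →
      ThreeConnected (satGraph K cl) ∧
      (satGraph K cl).Adj (s 0) (s (Fin.last n)) ∧
      (∀ (v : Vert n m K) (p : (satGraph K cl).Walk v v), p.IsCycle →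
        s(s 0, s (Fin.last n)) ∈ p.edges → 2 * n + 1 ≤ p.length) ∧
      (Satisfiable cl → ∃ (v : Vert n m K) (p : (satGraph K cl).Walk v v),
        InducedNonseparating (satGraph K cl) p ∧ s(s 0, s (Fin.last n)) ∈ p.edges ∧
        p.length = 2 * n + 1) ∧
      (¬ Satisfiable cl → ∀ (v : Vert n m K) (p : (satGraph K cl).Walk v v),
        InducedNonseparating (satGraph K cl) p → s(s 0, s (Fin.last n)) ∈ p.edges →
        K + 3 ≤ p.length) ∧
      (∀ (v : Vert n m K) (p : (satGraph K cl).Walk v v),
        InducedNonseparating (satGraph K cl) p → s(s 0, s (Fin.last n)) ∈ p.edges →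
        (∀ (w : Vert n m K) (q : (satGraph K cl).Walk w w),
          InducedNonseparating (satGraph K cl) q → s(s 0, s (Fin.last n)) ∈ q.edges →
          p.length * (2 * n + 1) < (K + 3) * q.length) →
        (Satisfiable cl ↔ p.length < K + 3)) := by
  refine ⟨card_vert n m K, ?_, ?_⟩
  · intro x y
    rcases x with i | ⟨k, b⟩ | ⟨j, t, a⟩ <;> rcases y with i' | ⟨k', b'⟩ | ⟨j', t', a'⟩
    · by_cases h : i ≠ i' ∧ ((i.val = 0 ∧ i'.val = n) ∨ (i'.val = 0 ∧ i.val = n))
      · exact Or.inl fun cl => (adj_s_s _ _).mpr h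
      · exact Or.inr (Or.inl fun cl h' => h ((adj_s_s _ _).mp h'))
    · by_cases h : i.val = k'.val ∨ i.val = k'.val + 1
      · exact Or.inl fun cl => (adj_s_lit _ _ _).mpr h
      · exact Or.inr (Or.inl fun cl h' => h ((adj_s_lit _ _ _).mp h'))
    · exact Or.inr (Or.inl fun cl => adj_s_blob _ _ _ _)
    · by_cases h : i'.val = k.val ∨ i'.val = k.val + 1
      · exact Or.inl fun cl => (adj_lit_s _ _ _).mpr h
      · exact Or.inr (Or.inl fun cl h' => h ((adj_lit_s _ _ _).mp h'))
    · exact Or.inr (Or.inl fun cl => adj_lit_lit _ _ _ _)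
    · by_cases h : t'.val = pos K k b
      · cases j' with
        | none => exact Or.inl fun cl => (adj_lit_blob _ _ _ _ _).mpr ⟨h, by simp⟩
        | some c =>
          refine Or.inr (Or.inr ⟨k, b, c, fun cl => ?_⟩)
          rw [adj_lit_blob]
          simp [h]
      · exact Or.inr (Or.inl fun cl h' => h ((adj_lit_blob _ _ _ _ _).mp h').1)
    · exact Or.inr (Or.inl fun cl => adj_blob_s _ _ _ _)
    · by_cases h : t.val = pos K k' b'
      · cases j with
        | none => exact Or.inl fun cl => (adj_blob_lit _ _ _ _ _).mpr ⟨h, by simp⟩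
        | some c =>
          refine Or.inr (Or.inr ⟨k', b', c, fun cl => ?_⟩)
          rw [adj_blob_lit]
          simp [h]
      · exact Or.inr (Or.inl fun cl h' => h ((adj_blob_lit _ _ _ _ _).mp h').1)
    · by_cases h : (j = j' ∧ ¬ (t = t' ∧ a = a')) ∧ t.val ≤ t'.val + 1 ∧ t'.val ≤ t.val + 1
      · exact Or.inl fun cl => (adj_blob_blob _ _ _ _ _ _).mpr h
      · exact Or.inr (Or.inl fun cl h' => h ((adj_blob_blob _ _ _ _ _ _).mp h'))
  · intro cl h3
    obtain ⟨h1, -, h2, h4, h5, h6⟩ := sat_graph_theorem n m K hn hK cl h3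
    refine ⟨h1, h2, h4, h5, h6, ?_⟩
    intro v p hp he happ
    constructor
    · intro hs
      obtain ⟨w, q, hq, heq, hql⟩ := h5 hs
      have := happ w q hq heq
      rw [hql] at this
      exact lt_of_mul_lt_mul_right this (Nat.zero_le _)
    · intro hlt
      by_contra hns
      exact absurd (h6 hns v p hp he) (by omega)

end Pool.Agent.Results.MP_75fd85_lc.PeripheralCycleNPHard
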