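import Pool.Agent.Lib.MP_75fd85_lc.Final

/-!
# Shortest induced nonseparating cycles through an edge: NP-hardness
-/

namespace Pool.Agent.Results.MP_75fd85_lc.PolyAlgorithmImpliesPeqNP

open Pool.Agent.Lib.MP_75fd85_lc

/-- If there is a polynomially bounded algorithm that finds, for every 3-connected graph and every
edge of it, a shortest induced nonseparating cycle through that edge, then every language in NP
is decidable in polynomial time. -/
theorem result : PolynomialAlgorithm → ∀ L : Set (List Bool), InNP L → InP L :=
  fun h L hL => main h L hL

end Pool.Agent.Results.MP_75fd85_lc.PolyAlgorithmImpliesPeqNP
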